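import Pool.Agent.Q14.OP.HNa

/-!
# Project OP, job HN: degrees and heights of the elements of an algebraic closure
-/

set_option autoImplicit false
set_option linter.unusedSectionVars false
set_option linter.deprecated false

namespace Pool.Agent.Q14.OP

open Pool.Agent.W277.UB Pool.Agent.W277.UH Finset Polynomial
open Pool.Agent.Q103.OP

universe u v w

section
variable (k : Type v) (L : Type u) [Field k] [Field L] [Algebra k L]

theorem hn_mul (E : IntermediateField L (AlgebraicClosure L)) [FiniteDimensional L E] (x : E) :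
    (Hk k x : ℝ) = hn k L (x : AlgebraicClosure L) * Module.finrank L E := by
  have hle : IntermediateField.adjoin L {(x : AlgebraicClosure L)} ≤ E :=
    IntermediateField.adjoin_simple_le_iff.2 x.2
  let E₁ := IntermediateField.adjoin L {(x : AlgebraicClosure L)}
  let _ : Algebra E₁ E := (IntermediateField.inclusion hle).toRingHom.toAlgebra
  have t1 : IsScalarTower L E₁ E := IsScalarTower.of_algebraMap_eq fun _ => rfl
  have t2 : IsScalarTower k E₁ E := IsScalarTower.of_algebraMap_eq fun _ => rfl
  have f1 : FiniteDimensional L E₁ :=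
    IntermediateField.adjoin.finiteDimensional (Algebra.IsIntegral.isIntegral _)
  have f2 : FiniteDimensional E₁ E := FiniteDimensional.right L E₁ E
  have h1 := Pool.Agent.Y555.CH.t_HTE k E₁ E
    (IntermediateField.AdjoinSimple.gen L (x : AlgebraicClosure L))
  have h2 : algebraMap E₁ E (IntermediateField.AdjoinSimple.gen L (x : AlgebraicClosure L)) = x :=
    Subtype.ext rfl
  rw [h2] at h1
  have h3 : Module.finrank L E₁ * Module.finrank E₁ E = Module.finrank L E :=
    Module.finrank_mul_finrank _ _ _
  have h4 : (0 : ℝ) < Module.finrank L E₁ := by exact_mod_cast Module.finrank_pos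
  have h5 : hn k L (x : AlgebraicClosure L) = (Module.finrank (IntermediateField.adjoin k
      {IntermediateField.AdjoinSimple.gen L (x : AlgebraicClosure L)}) E₁ : ℝ) /
        Module.finrank L E₁ := rfl
  have h6 : (Hk k x : ℝ) = (Module.finrank (IntermediateField.adjoin k
      {IntermediateField.AdjoinSimple.gen L (x : AlgebraicClosure L)}) E₁ : ℝ) *
        Module.finrank E₁ E := by exact_mod_cast h1
  rw [h6, h5, ← h3]
  push_cast
  field_simp

end

section
variable {L : Type u} [Field L]

theorem dn_pos (x : AlgebraicClosure L) : 0 < dn L x := by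
  have : FiniteDimensional L (IntermediateField.adjoin L {x}) :=
    IntermediateField.adjoin.finiteDimensional (Algebra.IsIntegral.isIntegral x)
  exact Module.finrank_pos

theorem fd_adj (x : AlgebraicClosure L) : FiniteDimensional L (IntermediateField.adjoin L {x}) :=
  IntermediateField.adjoin.finiteDimensional (Algebra.IsIntegral.isIntegral x)

theorem dn_le (E : IntermediateField L (AlgebraicClosure L)) [FiniteDimensional L E]
    {x : AlgebraicClosure L} (hx : x ∈ E) : dn L x ≤ Module.finrank L E := by
  have hle : IntermediateField.adjoin L {x} ≤ E := IntermediateField.adjoin_simple_le_iff.2 hx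
  exact IntermediateField.finrank_le_of_le_right hle

theorem field_of (D : ℕ) {ι : Type} (s : Finset ι) (c : ι → AlgebraicClosure L)
    (h : ∀ i, dn L (c i) ≤ D) : ∃ F : IntermediateField L (AlgebraicClosure L),
    FiniteDimensional L F ∧ Module.finrank L F ≤ D ^ s.card ∧ ∀ i ∈ s, c i ∈ F := by
  classical
  induction s using Finset.induction_on with
  | empty =>
    refine ⟨⊥, inferInstance, ?_, ?_⟩
    · rw [IntermediateField.finrank_bot]
      simp
    · intro i hi
      simp at hi
  | insert a s ha ih =>
    obtain ⟨F, hF, h1, h2⟩ := ih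
    have hf := fd_adj (c a)
    refine ⟨F ⊔ IntermediateField.adjoin L {c a}, inferInstance, ?_, ?_⟩
    · rw [Finset.card_insert_of_notMem ha, pow_succ]
      exact (IntermediateField.finrank_sup_le F _).trans (Nat.mul_le_mul h1 (h a))
    · intro i hi
      rw [Finset.mem_insert] at hi
      rcases hi with rfl | hi
      · exact (le_sup_right : _ ≤ F ⊔ IntermediateField.adjoin L {c i})
          (IntermediateField.mem_adjoin_simple_self L (c i))
      · exact (le_sup_left : F ≤ F ⊔ IntermediateField.adjoin L {c a}) (h2 i hi)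

theorem field_root (D : ℕ) (P : (AlgebraicClosure L)[X]) (hP : P.Monic) (hD : P.natDegree ≤ D)
    (h : ∀ i, dn L (P.coeff i) ≤ D) (x : AlgebraicClosure L) (hx : P.IsRoot x) :
    ∃ E : IntermediateField L (AlgebraicClosure L), FiniteDimensional L E ∧
      Module.finrank L E ≤ D ^ (D + 2) ∧ x ∈ E ∧ ∀ i, P.coeff i ∈ E := by
  obtain ⟨F, hF, h1, h2⟩ := field_of D (range (D + 1)) (fun i => P.coeff i) h
  have hcoef : ∀ i, P.coeff i ∈ F := by
    intro i
    by_cases hi : i ∈ range (D + 1)
    · exact h2 i hi
    · rw [Finset.mem_range] at hi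
      rw [coeff_eq_zero_of_natDegree_lt (by omega)]
      exact zero_mem F
  obtain ⟨P', hP'⟩ : P ∈ lifts (algebraMap F (AlgebraicClosure L)) :=
    (lifts_iff_coeff_lifts P).mpr fun i => ⟨⟨P.coeff i, hcoef i⟩, rfl⟩
  have hP'' : P'.map (algebraMap F (AlgebraicClosure L)) = P := hP'
  have hinj : Function.Injective (algebraMap F (AlgebraicClosure L)) := (algebraMap F _).injective
  have hmon : P'.Monic := by
    rw [← hP''] at hP
    exact (monic_map_iff).mp hP
  have hdeg : P'.natDegree ≤ D := by
    rw [← natDegree_map_eq_of_injective hinj, hP'']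
    exact hD
  have hroot : aeval x P' = 0 := by
    rw [aeval_def, ← eval_map, hP'']
    exact hx
  have hint : IsIntegral F x := ⟨P', hmon, by rw [← aeval_def]; exact hroot⟩
  have hfd : FiniteDimensional F (IntermediateField.adjoin F {x}) :=
    IntermediateField.adjoin.finiteDimensional hint
  have hfr : Module.finrank F (IntermediateField.adjoin F {x}) ≤ D := by
    rw [IntermediateField.adjoin.finrank hint]
    exact (natDegree_le_natDegree (minpoly.min F x hmon hroot)).trans hdeg
  have hfd2 : FiniteDimensional L (IntermediateField.adjoin F {x}) := FiniteDimensional.trans L F _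
  refine ⟨(IntermediateField.adjoin F {x}).restrictScalars L, hfd2, ?_, ?_, ?_⟩
  · have h3 : Module.finrank L F * Module.finrank F (IntermediateField.adjoin F {x}) =
        Module.finrank L (IntermediateField.adjoin F {x}) := Module.finrank_mul_finrank _ _ _
    have h4 : Module.finrank L (IntermediateField.adjoin F {x}) ≤ D ^ (D + 1) * D := by
      rw [← h3]
      refine Nat.mul_le_mul ?_ hfr
      rw [card_range] at h1
      exact h1
    exact h4
  · exact IntermediateField.mem_adjoin_simple_self F x
  · intro i
    exact (IntermediateField.adjoin F {x}).algebraMap_mem ⟨P.coeff i, hcoef i⟩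

end

section
variable (k : Type v) (L : Type u) [Field k] [Field L] [Algebra k L]

/-- the variable in a finite extension -/
theorem ext_data (t : L) (ht : Transcendental k t)
    (hfd : FiniteDimensional (IntermediateField.adjoin k {t}) L) (n N : ℕ)
    (hn : Module.finrank (IntermediateField.adjoin k {t}) L ≤ n)
    (E : IntermediateField L (AlgebraicClosure L)) [FiniteDimensional L E]
    (hN : Module.finrank L E ≤ N) :
    Transcendental k (algebraMap L E t) ∧
    FiniteDimensional (IntermediateField.adjoin k {algebraMap L E t}) E ∧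
    Module.finrank (IntermediateField.adjoin k {algebraMap L E t}) E ≤ n * N := by
  have h1 := Pool.Agent.Y555.CH.t_HTE k L E t
  refine ⟨?_, ?_, ?_⟩
  · intro h
    exact ht ((isAlgebraic_algebraMap_iff (algebraMap L E).injective).mp h)
  · apply FiniteDimensional.of_finrank_pos
    rw [h1]
    exact Nat.mul_pos Module.finrank_pos Module.finrank_pos
  · rw [h1]
    exact Nat.mul_le_mul hn hN

end

theorem t_HN : S_HN.{u, v} := by
  intro n
  have hg : ∀ m : ℕ, ∃ C : ℕ, _ := gen.{u, v}
  choose C hC using hg
  refine ⟨fun D => (C (n * D ^ (D + 2)) : ℝ), fun D => D ^ (D + 2), fun D => Nat.cast_nonneg _, ?_⟩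
  intro k L _ _ _ _ t ht hfd hn'
  have hzero : ∀ x : AlgebraicClosure L, hn k L x = 0 ↔ IsAlgebraic k x := by
    intro x
    have hf := fd_adj x
    obtain ⟨h1, h2, h3⟩ := ext_data k L t ht hfd n _ hn' (IntermediateField.adjoin L {x}) le_rfl
    have h4 := (hC _ k _ _ h1 h2 h3).2 (IntermediateField.AdjoinSimple.gen L x)
    have h5 := hn_mul k L (IntermediateField.adjoin L {x}) (IntermediateField.AdjoinSimple.gen L x)
    have h6 : (0 : ℝ) < Module.finrank L (IntermediateField.adjoin L {x}) := by
      exact_mod_cast Module.finrank_pos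
    have h7 : ((IntermediateField.AdjoinSimple.gen L x : IntermediateField.adjoin L {x}) :
      AlgebraicClosure L) = x := rfl
    rw [h7] at h5
    have ist : IsScalarTower k (IntermediateField.adjoin L {x}) (AlgebraicClosure L) :=
      IsScalarTower.of_algebraMap_eq fun _ => rfl
    have h8 : IsAlgebraic k (IntermediateField.AdjoinSimple.gen L x) ↔ IsAlgebraic k x :=
      (isAlgebraic_algebraMap_iff (algebraMap (IntermediateField.adjoin L {x})
        (AlgebraicClosure L)).injective).symm
    rw [← h8, ← h4]
    constructor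
    · intro h
      rw [h, zero_mul] at h5
      exact_mod_cast h5
    · intro h
      rw [h, Nat.cast_zero] at h5
      rcases mul_eq_zero.mp h5.symm with h9 | h9
      · exact h9
      · exact absurd h9 h6.ne'
  have hnn : ∀ x : AlgebraicClosure L, 0 ≤ hn k L x := fun x => by unfold hn; positivity
  -- the inequality
  have key : ∀ (D : ℕ) (E : IntermediateField L (AlgebraicClosure L)), FiniteDimensional L E →
      Module.finrank L E ≤ D ^ (D + 2) → ∀ (ι : Type) (x : E) (Y : Finset ι) (y : ι → E),
      (∀ (k' : Type u) [Field k'] [Algebra k' E] (Q : PlaceData.{u} k' E) (v : Q.Pl),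
        Q.pole v x ≤ ∑ j ∈ Y, Q.pole v (y j)) →
      hn k L (x : AlgebraicClosure L) ≤
        (C (n * D ^ (D + 2)) : ℝ) * ∑ j ∈ Y, hn k L (y j : AlgebraicClosure L) := by
    intro D E hE hED ι x Y y hxy
    obtain ⟨h1, h2, h3⟩ := ext_data k L t ht hfd n _ hn' E hED
    have h4 := (hC _ k E _ h1 h2 h3).1 ι x Y y hxy
    have h5 : (0 : ℝ) < Module.finrank L E := by exact_mod_cast Module.finrank_pos
    have h6 : (Hk k x : ℝ) ≤ (C (n * D ^ (D + 2)) : ℝ) * ∑ j ∈ Y, (Hk k (y j) : ℝ) := by
      exact_mod_cast h4
    rw [hn_mul k L E x] at h6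
    simp only [hn_mul k L E] at h6
    rw [← Finset.sum_mul, ← mul_assoc] at h6
    exact le_of_mul_le_mul_right h6 h5
  have hpow : ∀ D : ℕ, 0 < D → D * D ≤ D ^ (D + 2) := by
    intro D hD
    have h1 : D ^ 2 ≤ D ^ (D + 2) := Nat.pow_le_pow_right hD (by omega)
    rwa [pow_two] at h1
  have two : ∀ (D : ℕ) (x y : AlgebraicClosure L), dn L x ≤ D → dn L y ≤ D →
      ∃ E : IntermediateField L (AlgebraicClosure L), FiniteDimensional L E ∧
        Module.finrank L E ≤ D ^ (D + 2) ∧ x ∈ E ∧ y ∈ E := by
    intro D x y hx hy
    have h1 := fd_adj x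
    have h2 := fd_adj y
    refine ⟨IntermediateField.adjoin L {x} ⊔ IntermediateField.adjoin L {y}, inferInstance,
      ?_, ?_, ?_⟩
    · exact (IntermediateField.finrank_sup_le _ _).trans ((Nat.mul_le_mul hx hy).trans
        (hpow D (lt_of_lt_of_le (dn_pos x) hx)))
    · exact (le_sup_left : IntermediateField.adjoin L {x} ≤ _)
        (IntermediateField.mem_adjoin_simple_self L x)
    · exact (le_sup_right : IntermediateField.adjoin L {y} ≤ _)
        (IntermediateField.mem_adjoin_simple_self L y)
  have hadj : ∀ (x y : AlgebraicClosure L),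
      IntermediateField.adjoin L {x} = IntermediateField.adjoin L {y} →
      (∀ (E : IntermediateField L (AlgebraicClosure L)) (hx : x ∈ E) (hy : y ∈ E),
        IntermediateField.adjoin k {(⟨x, hx⟩ : E)} = IntermediateField.adjoin k {(⟨y, hy⟩ : E)}) →
      dn L x = dn L y ∧ hn k L x = hn k L y := by
    intro x y h1 h2
    refine ⟨by unfold dn; rw [h1], ?_⟩
    have hf := fd_adj x
    have hx : x ∈ IntermediateField.adjoin L {x} := IntermediateField.mem_adjoin_simple_self L x
    have hy : y ∈ IntermediateField.adjoin L {x} := by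
      rw [h1]
      exact IntermediateField.mem_adjoin_simple_self L y
    have h3 := hn_mul k L (IntermediateField.adjoin L {x}) ⟨x, hx⟩
    have h4 := hn_mul k L (IntermediateField.adjoin L {x}) ⟨y, hy⟩
    have h5 : Hk k (⟨x, hx⟩ : IntermediateField.adjoin L {x}) =
        Hk k (⟨y, hy⟩ : IntermediateField.adjoin L {x}) := by
      unfold Hk
      rw [h2 _ hx hy]
    rw [h5, h4] at h3
    have h6 : (0 : ℝ) < Module.finrank L (IntermediateField.adjoin L {x}) := by
      exact_mod_cast Module.finrank_pos
    exact (mul_right_cancel₀ h6.ne' h3).symm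
  refine ⟨⟨{ dg := dn L
             h := hn k L
             h_nonneg := hnn
             zero := ⟨?_, (hzero 0).2 isAlgebraic_zero⟩
             one := ⟨?_, (hzero 1).2 isAlgebraic_one⟩
             neg := ?_
             inv := ?_
             add := ?_
             mul := ?_
             root := ?_ }, rfl, rfl⟩, hzero, fun E hE x => hn_mul k L E x⟩
  · unfold dn
    rw [IntermediateField.adjoin_zero, IntermediateField.finrank_bot]
  · unfold dn
    rw [IntermediateField.adjoin_one, IntermediateField.finrank_bot]
  · intro x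
    apply hadj
    · apply le_antisymm
      · rw [IntermediateField.adjoin_simple_le_iff]
        exact neg_mem (IntermediateField.mem_adjoin_simple_self L x)
      · rw [IntermediateField.adjoin_simple_le_iff]
        exact neg_mem_iff.mp (IntermediateField.mem_adjoin_simple_self L (-x))
    · intro E hx hy
      have e : (⟨-x, hx⟩ : E) = -⟨x, hy⟩ := rfl
      rw [e]
      apply le_antisymm
      · rw [IntermediateField.adjoin_simple_le_iff]
        exact neg_mem (IntermediateField.mem_adjoin_simple_self k _)
      · rw [IntermediateField.adjoin_simple_le_iff]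
        exact neg_mem_iff.mp (IntermediateField.mem_adjoin_simple_self k (-(⟨x, hy⟩ : E)))
  · intro x
    apply hadj
    · apply le_antisymm
      · rw [IntermediateField.adjoin_simple_le_iff]
        exact inv_mem (IntermediateField.mem_adjoin_simple_self L x)
      · rw [IntermediateField.adjoin_simple_le_iff]
        exact inv_mem_iff.mp (IntermediateField.mem_adjoin_simple_self L x⁻¹)
    · intro E hx hy
      have e : (⟨x⁻¹, hx⟩ : E) = (⟨x, hy⟩ : E)⁻¹ := rfl
      rw [e]
      apply le_antisymm
      · rw [IntermediateField.adjoin_simple_le_iff]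
        exact inv_mem (IntermediateField.mem_adjoin_simple_self k _)
      · rw [IntermediateField.adjoin_simple_le_iff]
        exact inv_mem_iff.mp (IntermediateField.mem_adjoin_simple_self k (⟨x, hy⟩ : E)⁻¹)
  · intro D x y hx hy
    obtain ⟨E, hE, h1, h2, h3⟩ := two D x y hx hy
    refine ⟨(dn_le E (add_mem h2 h3)).trans h1, ?_⟩
    have h4 := key D E hE h1 (Fin 2) (⟨x, h2⟩ + ⟨y, h3⟩) Finset.univ ![⟨x, h2⟩, ⟨y, h3⟩] (by
      intro k' _ _ Q v
      rw [Fin.sum_univ_two]
      exact pole_add Q v _ _)
    rw [Fin.sum_univ_two] at h4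
    exact h4
  · intro D x y hx hy
    obtain ⟨E, hE, h1, h2, h3⟩ := two D x y hx hy
    refine ⟨(dn_le E (mul_mem h2 h3)).trans h1, ?_⟩
    have h4 := key D E hE h1 (Fin 2) (⟨x, h2⟩ * ⟨y, h3⟩) Finset.univ ![⟨x, h2⟩, ⟨y, h3⟩] (by
      intro k' _ _ Q v
      rw [Fin.sum_univ_two]
      exact pole_mul Q v _ _)
    rw [Fin.sum_univ_two] at h4
    exact h4
  · intro D P hP hD hc x hx
    obtain ⟨E, hE, h1, h2, h3⟩ := field_root D P hP hD hc x hx
    refine ⟨(dn_le E h2).trans h1, ?_⟩
    obtain ⟨P', hP'⟩ : P ∈ lifts (algebraMap E (AlgebraicClosure L)) :=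
      (lifts_iff_coeff_lifts P).mpr fun i => ⟨⟨P.coeff i, h3 i⟩, rfl⟩
    have hP'' : P'.map (algebraMap E (AlgebraicClosure L)) = P := hP'
    have hinj : Function.Injective (algebraMap E (AlgebraicClosure L)) := (algebraMap E _).injective
    have hmon : P'.Monic := by
      rw [← hP''] at hP
      exact (monic_map_iff).mp hP
    have hdeg : P'.natDegree ≤ D := by
      rw [← natDegree_map_eq_of_injective hinj, hP'']
      exact hD
    have hroot : P'.IsRoot (⟨x, h2⟩ : E) := by
      have h5 : (P'.map (algebraMap E (AlgebraicClosure L))).eval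
          (algebraMap E (AlgebraicClosure L) ⟨x, h2⟩) = 0 := by
        rw [hP'']
        exact hx
      rw [eval_map_algebraMap, aeval_algebraMap_apply] at h5
      exact (map_eq_zero _).mp h5
    have h4 := key D E hE h1 ℕ ⟨x, h2⟩ (range (D + 1)) (fun i => P'.coeff i) (by
      intro k' _ _ Q v
      exact pole_root Q v P' hmon _ hroot D hdeg)
    refine h4.trans (le_of_eq ?_)
    congr 1
    refine Finset.sum_congr rfl fun i _ => ?_
    rw [← hP'', coeff_map]
    rfl

end Pool.Agent.Q14.OP
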