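import Pool.Agent.Q103.OP.Defs
import Pool.Agent.Y362.CH.PD
import Pool.Agent.Y968.CH.Deg
import Pool.Agent.Y195.CH.NRM
import Pool.Agent.Y555.CH.Ext
import Pool.Agent.W277.UD.StrongFin

/-!
# Project OP, job HN: inequalities between degrees over `k(x)` in a function field
-/

set_option autoImplicit false
set_option linter.unusedSectionVars false
set_option linter.deprecated false

namespace Pool.Agent.Q14.OP

open Pool.Agent.W277.UB Pool.Agent.W277.UH Finset Polynomial
open Pool.Agent.W277.UB.PlaceData (pole_nonneg pole_zero pole_of_ne)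
open Pool.Agent.Y706.CH (sp sp_ord sp_pole)

universe u v w

/-- the degree over `k(x)` -/
noncomputable def Hk (k : Type v) {E : Type u} [Field k] [Field E] [Algebra k E] (x : E) : ℕ :=
  Module.finrank (IntermediateField.adjoin k {x}) E

/-- inequalities between poles give inequalities between degrees -/
theorem gen (m : ℕ) : ∃ C : ℕ, ∀ (k : Type v) (E : Type u) [Field k] [CharZero k] [Field E]
    [Algebra k E] (t : E), Transcendental k t →
    FiniteDimensional (IntermediateField.adjoin k {t}) E →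
    Module.finrank (IntermediateField.adjoin k {t}) E ≤ m →
    (∀ (ι : Type) (x : E) (Y : Finset ι) (y : ι → E),
      (∀ (k' : Type u) [Field k'] [Algebra k' E] (Q : PlaceData.{u} k' E) (v : Q.Pl),
        Q.pole v x ≤ ∑ j ∈ Y, Q.pole v (y j)) →
      Hk k x ≤ C * ∑ j ∈ Y, Hk k (y j)) ∧
    ∀ x : E, Hk k x = 0 ↔ IsAlgebraic k x := by
  classical
  obtain ⟨C, hC⟩ := (Pool.Agent.Y362.CH.t_PD : Pool.Agent.Y706.CH.S_PD.{u, u})
  set D : ℕ := ∑ i ∈ range (m + 1), C i with hD
  have hCle : ∀ j ≤ m, C j ≤ D := by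
    intro j hj
    exact Finset.single_le_sum (f := C) (fun i _ => Nat.zero_le _) (Finset.mem_range.mpr (by omega))
  refine ⟨m * (D * D), ?_⟩
  intro k E _ _ _ _ t ht hfd hm
  obtain ⟨inst, hst, hfin, hle⟩ := Pool.Agent.W277.UD.exists_ratAlg k E t ht
  obtain ⟨hkf, hkfle⟩ := Pool.Agent.Y968.CH.t_KF k E t ht hfd
  have : CharZero (algebraicClosure k E) := charZero_of_injective_algebraMap
    (algebraMap k (algebraicClosure k E)).injective
  have : CharZero (RatFunc (algebraicClosure k E)) := charZero_of_injective_algebraMap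
    (algebraMap (algebraicClosure k E) (RatFunc (algebraicClosure k E))).injective
  have halg : ∀ x : E, IsAlgebraic (algebraicClosure k E) x →
      ∃ c : algebraicClosure k E, algebraMap (algebraicClosure k E) E c = x := by
    intro y hy
    have h1 : IsAlgebraic k y := hy.restrictScalars k
    exact ⟨⟨y, h1.isIntegral⟩, rfl⟩
  obtain ⟨t₁, ht₁, hfd₁⟩ := Pool.Agent.Y195.CH.t_FDA (algebraicClosure k E) E
  have hcomp : ∀ x : E, Module.finrank (IntermediateField.adjoin (algebraicClosure k E) {x}) E ≤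
      Hk k x ∧ Hk k x ≤
        m * Module.finrank (IntermediateField.adjoin (algebraicClosure k E) {x}) E := by
    intro x
    obtain ⟨h1, h2⟩ := Pool.Agent.Y968.CH.t_HT k (algebraicClosure k E) E E t₁ ht₁ hfd₁ x
    refine ⟨h1, h2.trans ?_⟩
    rw [Module.finrank_self, mul_one]
    exact Nat.mul_le_mul_right _ (hkfle.trans hm)
  have hctr : ∀ x : E, ¬ IsAlgebraic k x → ∀ c : algebraicClosure k E,
      x ≠ algebraMap (algebraicClosure k E) E c := by
    intro x hx c hc
    apply hx
    rw [hc]
    exact mem_algebraicClosure_iff.mp c.2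
  obtain ⟨g, -, hg, hgc⟩ := Pool.Agent.W277.UD.exists_gen (k := algebraicClosure k E)
    (F := RatFunc (algebraicClosure k E)) (E := E) Set.univ
    (IntermediateField.adjoin_univ _ _) t (Set.mem_univ t) (hctr t ht)
  obtain ⟨Q, -, hQ2⟩ := hC (algebraicClosure k E) E halg g hg hgc
  set r := Module.finrank (RatFunc (algebraicClosure k E)) E with hr
  have hrD : C r ≤ D := hCle r (hle.trans hm)
  have hsum0 : ∀ (S : Finset Q.Pl) (x : E), 0 ≤ ∑ v ∈ S, Q.wt v * Q.pole v x := fun S x =>
    Finset.sum_nonneg fun v _ => mul_nonneg (Q.wt_nonneg v) (pole_nonneg v x)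
  constructor
  · intro ι x Y y hxy
    set S := sp Q (insert x (Y.image y)) with hS
    have hSx : ∀ v, v ∉ S → Q.pole v x = 0 := fun v hv =>
      sp_pole Q _ v hv x (Finset.mem_insert_self _ _)
    have hSy : ∀ j ∈ Y, ∀ v, v ∉ S → Q.pole v (y j) = 0 := fun j hj v hv =>
      sp_pole Q _ v hv (y j) (Finset.mem_insert_of_mem (Finset.mem_image_of_mem y hj))
    have h1 := (hQ2 x S hSx).2
    have h2 : ∑ v ∈ S, Q.wt v * Q.pole v x ≤ ∑ j ∈ Y, ∑ v ∈ S, Q.wt v * Q.pole v (y j) := by
      rw [Finset.sum_comm]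
      refine Finset.sum_le_sum fun v _ => ?_
      rw [← Finset.mul_sum]
      exact mul_le_mul_of_nonneg_left (hxy _ Q v) (Q.wt_nonneg v)
    have h3 : ∑ j ∈ Y, ∑ v ∈ S, Q.wt v * Q.pole v (y j) ≤
        ∑ j ∈ Y, (D : ℤ) * (Hk k (y j) : ℤ) := by
      refine Finset.sum_le_sum fun j hj => ?_
      refine (hQ2 (y j) S (hSy j hj)).1.trans ?_
      refine mul_le_mul (by exact_mod_cast hrD) (by exact_mod_cast (hcomp (y j)).1)
        (Int.natCast_nonneg _) (Int.natCast_nonneg _)
    rw [← Finset.mul_sum] at h3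
    have h4 : (Module.finrank (IntermediateField.adjoin (algebraicClosure k E) {x}) E : ℤ) ≤
        (D : ℤ) * ((D : ℤ) * ∑ j ∈ Y, (Hk k (y j) : ℤ)) := by
      refine h1.trans ?_
      refine mul_le_mul (by exact_mod_cast hrD) (h2.trans h3) (hsum0 _ _) (Int.natCast_nonneg _)
    have h5 : Module.finrank (IntermediateField.adjoin (algebraicClosure k E) {x}) E ≤
        D * (D * ∑ j ∈ Y, Hk k (y j)) := by exact_mod_cast h4
    calc Hk k x ≤ m * Module.finrank (IntermediateField.adjoin (algebraicClosure k E) {x}) E :=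
          (hcomp x).2
      _ ≤ m * (D * (D * ∑ j ∈ Y, Hk k (y j))) := Nat.mul_le_mul_left _ h5
      _ = m * (D * D) * ∑ j ∈ Y, Hk k (y j) := by ring
  · intro x
    constructor
    · intro h0
      by_contra hx
      have h1 : Module.finrank (IntermediateField.adjoin (algebraicClosure k E) {x}) E = 0 :=
        Nat.le_zero.mp (h0 ▸ (hcomp x).1)
      have hx0 : x ≠ 0 := by
        rintro rfl
        exact hx isAlgebraic_zero
      obtain ⟨v, hv⟩ : ∃ v, Q.ord v x < 0 := by
        by_contra hcon
        push Not at hcon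
        obtain ⟨c, hc⟩ := Q.const x hx0 hcon
        exact hctr x hx c hc.symm
      have hvS : v ∈ sp Q {x} := by
        by_contra hv1
        have := sp_ord Q _ v hv1 x (Finset.mem_singleton_self x) hx0
        omega
      have h2 : 1 ≤ Q.pole v x := by
        rw [pole_of_ne hx0]
        apply le_max_of_le_right
        omega
      have h3 : Q.wt v * Q.pole v x ≤ ∑ v ∈ sp Q {x}, Q.wt v * Q.pole v x :=
        Finset.single_le_sum (f := fun v => Q.wt v * Q.pole v x)
          (fun v _ => mul_nonneg (Q.wt_nonneg v) (pole_nonneg v x)) hvS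
      have h4 : 1 ≤ Q.wt v * Q.pole v x := by nlinarith [Q.wt_one v]
      have h5 := (hQ2 x (sp Q {x}) (fun v hv => sp_pole Q _ v hv x
        (Finset.mem_singleton_self x))).1
      rw [h1] at h5
      simp only [Nat.cast_zero, mul_zero] at h5
      omega
    · intro hx
      exact (Pool.Agent.Y195.CH.t_HTA k E t ht).1 x hx

/-- poles of sums, products and roots -/
theorem pole_add {k E : Type*} [Field k] [Field E] [Algebra k E] (Q : PlaceData.{w} k E)
    (v : Q.Pl) (x y : E) : Q.pole v (x + y) ≤ Q.pole v x + Q.pole v y := by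
  have hx := pole_nonneg (Q := Q) v x
  have hy := pole_nonneg (Q := Q) v y
  apply PlaceData.pole_le_of_G (by omega)
  apply PlaceData.G_add
  · exact PlaceData.G_mono (PlaceData.G_pole v x) (by omega)
  · exact PlaceData.G_mono (PlaceData.G_pole v y) (by omega)

theorem pole_mul {k E : Type*} [Field k] [Field E] [Algebra k E] (Q : PlaceData.{w} k E)
    (v : Q.Pl) (x y : E) : Q.pole v (x * y) ≤ Q.pole v x + Q.pole v y := by
  have hx := pole_nonneg (Q := Q) v x
  have hy := pole_nonneg (Q := Q) v y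
  apply PlaceData.pole_le_of_G (by omega)
  exact PlaceData.G_mono (PlaceData.G_mul (PlaceData.G_pole v x) (PlaceData.G_pole v y)) (by omega)

theorem ord_pow {k E : Type*} [Field k] [Field E] [Algebra k E] (Q : PlaceData.{w} k E)
    (v : Q.Pl) (x : E) (hx : x ≠ 0) (n : ℕ) : Q.ord v (x ^ n) = n * Q.ord v x := by
  induction n with
  | zero => rw [pow_zero, PlaceData.ord_one]; simp
  | succ n ih =>
    rw [pow_succ, Q.ord_mul v _ _ (pow_ne_zero n hx) hx, ih]
    push_cast
    ring

theorem pole_root {k E : Type*} [Field k] [Field E] [Algebra k E] (Q : PlaceData.{w} k E)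
    (v : Q.Pl) (P : E[X]) (hP : P.Monic) (x : E) (hx : P.IsRoot x) (D : ℕ)
    (hD : P.natDegree ≤ D) :
    Q.pole v x ≤ ∑ i ∈ range (D + 1), Q.pole v (P.coeff i) := by
  by_cases hx0 : x = 0
  · rw [hx0, pole_zero]
    exact Finset.sum_nonneg fun i _ => pole_nonneg v _
  set M := ∑ i ∈ range (D + 1), Q.pole v (P.coeff i) with hM
  have hM0 : 0 ≤ M := Finset.sum_nonneg fun i _ => pole_nonneg v _
  have hMi : ∀ i < P.natDegree, Q.pole v (P.coeff i) ≤ M := fun i hi =>
    Finset.single_le_sum (f := fun i => Q.pole v (P.coeff i)) (fun i _ => pole_nonneg v _)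
      (Finset.mem_range.mpr (by omega))
  by_contra hcon
  push Not at hcon
  rw [pole_of_ne hx0] at hcon
  have hord : Q.ord v x < -M := by
    rcases lt_max_iff.mp hcon with h | h <;> omega
  set n := P.natDegree with hn
  have h1 : P.eval x = 0 := hx
  rw [eval_eq_sum_range, Finset.sum_range_succ, ← hn] at h1
  have hlead : P.coeff n = 1 := hP.coeff_natDegree
  rw [hlead, one_mul] at h1
  have h2 : Q.G v (-M + ((n : ℤ) - 1) * Q.ord v x) (∑ i ∈ range n, P.coeff i * x ^ i) := by
    apply PlaceData.G_sum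
    intro i hi
    rw [Finset.mem_range] at hi
    have h3 : Q.G v (i * Q.ord v x) (x ^ i) := fun _ => by rw [ord_pow Q v x hx0]
    refine PlaceData.G_mono (PlaceData.G_mul (PlaceData.G_mono (PlaceData.G_pole v (P.coeff i))
      (neg_le_neg (hMi i hi))) h3) ?_
    have h4 : ((n : ℤ) - 1) * Q.ord v x ≤ i * Q.ord v x := by
      apply mul_le_mul_of_nonpos_right _ (by omega)
      omega
    linarith
  have h3 : ∑ i ∈ range n, P.coeff i * x ^ i = -(x ^ n) := by
    linear_combination h1
  rw [h3] at h2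
  have h4 := h2 (neg_ne_zero.mpr (pow_ne_zero n hx0))
  rw [PlaceData.ord_neg (pow_ne_zero n hx0), ord_pow Q v x hx0] at h4
  nlinarith

end Pool.Agent.Q14.OP
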